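import Pool.Agent.helper66.AZD.Basic

/-!
# Adding a countable set to an almost zero-dimensional space

If `X = A ∪ C` is a separable metric space with `C` countable and `A` almost zero-dimensional, then
`X` has small neighbourhoods with zero-dimensional frontiers.
-/

set_option autoImplicit false

open Set Filter Topology

namespace Pool.Agent.helper66.AZD

section Expand

variable {X Y : Type*} [PseudoMetricSpace X] [PseudoMetricSpace Y]

/-- A partition of `Z` into small relatively open sets expands to a partition of an open set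
containing `Z` into small open sets. -/
theorem expand {j : X → Y} (hj : Continuous j) {Z : Set X} {π : X → ℕ} (hπ : LC Z π)
    {ε : ℝ} (hε : 0 < ε) (hs : ∀ x ∈ Z, ∀ y ∈ Z, π x = π y → dist (j x) (j y) < ε) :
    ∃ (G : Set X) (π' : X → ℕ), IsOpen G ∧ Z ⊆ G ∧ (∀ x ∈ G, ∀ᶠ y in 𝓝 x, π' y = π' x) ∧
      ∀ x ∈ G, ∀ y ∈ G, π' x = π' y → dist (j x) (j y) < 3 * ε := by
  classical
  have hr : ∀ p ∈ Z, ∃ r : ℝ, 0 < r ∧ (∀ y ∈ Z, dist y p < 2 * r → π y = π p) ∧
      ∀ y, dist y p < r → dist (j y) (j p) < ε := by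
    intro p hp
    obtain ⟨δ, hδ, h1⟩ := Metric.mem_nhdsWithin_iff.1 (hπ p hp)
    obtain ⟨δ', hδ', h2⟩ := Metric.continuousAt_iff.1 (hj.continuousAt (x := p)) ε hε
    refine ⟨min (δ / 2) δ', by positivity, ?_, ?_⟩
    · intro y hy hyp
      have : dist y p < δ := by
        have := min_le_left (δ / 2) δ'
        linarith
      exact h1 ⟨this, hy⟩
    · intro y hyp
      exact h2 (lt_of_lt_of_le hyp (min_le_right _ _))
  choose! r hr0 hr1 hr2 using hr
  have key : ∀ x p q, p ∈ Z → q ∈ Z → dist x p < r p → dist x q < r q → r q ≤ r p →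
      π q = π p := by
    intro x p q hp hq hxp hxq hle
    refine hr1 p hp q hq ?_
    have := dist_triangle_left q p x
    linarith
  have key2 : ∀ x p q, p ∈ Z → q ∈ Z → dist x p < r p → dist x q < r q → π q = π p := by
    intro x p q hp hq hxp hxq
    rcases le_total (r q) (r p) with h | h
    · exact key x p q hp hq hxp hxq h
    · exact (key x q p hq hp hxq hxp h).symm
  let G : Set X := ⋃ p ∈ Z, Metric.ball p (r p)
  have hGmem : ∀ x, x ∈ G ↔ ∃ p ∈ Z, dist x p < r p := by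
    intro x
    simp [G]
  let π' : X → ℕ := fun x => if h : ∃ p ∈ Z, dist x p < r p then π h.choose else 0
  have hπ' : ∀ x p, p ∈ Z → dist x p < r p → π' x = π p := by
    intro x p hp hxp
    have hex : ∃ p ∈ Z, dist x p < r p := ⟨p, hp, hxp⟩
    have : π' x = π hex.choose := dif_pos hex
    rw [this]
    exact key2 x p hex.choose hp hex.choose_spec.1 hxp hex.choose_spec.2
  refine ⟨G, π', isOpen_biUnion fun p _ => Metric.isOpen_ball, ?_, ?_, ?_⟩
  · intro x hx
    exact (hGmem x).2 ⟨x, hx, by simpa using hr0 x hx⟩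
  · intro x hx
    obtain ⟨p, hp, hxp⟩ := (hGmem x).1 hx
    have : ∀ᶠ y in 𝓝 x, y ∈ Metric.ball p (r p) := Metric.isOpen_ball.mem_nhds hxp
    filter_upwards [this] with y hy
    rw [hπ' y p hp hy, hπ' x p hp hxp]
  · intro x hx y hy hxy
    obtain ⟨p, hp, hxp⟩ := (hGmem x).1 hx
    obtain ⟨q, hq, hyq⟩ := (hGmem y).1 hy
    rw [hπ' x p hp hxp, hπ' y q hq hyq] at hxy
    have h1 := hs p hp q hq hxy
    have h2 := hr2 p hp x hxp
    have h3 := hr2 q hq y hyq
    have h4 := dist_triangle4 (j x) (j p) (j q) (j y)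
    rw [dist_comm (j q) (j y)] at h4
    linarith

/-- A countable set has small relatively clopen neighbourhoods. -/
theorem countable_piece {j : X → Y} (hj : Continuous j) {C : Set X} (hC : C.Countable)
    {ε : ℝ} (hε : 0 < ε) {z : X} :
    ∃ P : Set X, z ∈ P ∧ ClOn C P ∧ ∀ x ∈ C, x ∈ P → ∀ y ∈ C, y ∈ P → dist (j x) (j y) < ε := by
  have hcount : ((fun y => dist (j z) (j y)) '' C).Countable := hC.image _
  obtain ⟨r, hr1, hr2⟩ := (hcount.dense_compl ℝ).exists_mem_open (isOpen_Ioo (a := (0 : ℝ))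
    (b := ε / 2)) (nonempty_Ioo.2 (by positivity))
  have hcont : Continuous fun y => dist (j z) (j y) := continuous_const.dist hj
  refine ⟨Set.ofPred fun y => dist (j z) (j y) < r, ?_, ⟨?_, ?_⟩, ?_⟩
  · change dist (j z) (j z) < r
    rw [dist_self]
    exact hr2.1
  · intro x _ hxP
    exact mem_nhdsWithin_of_mem_nhds ((isOpen_lt hcont continuous_const).mem_nhds hxP)
  · intro x hx hxP
    have hge : r ≤ dist (j z) (j x) := not_lt.1 hxP
    have hne : r ≠ dist (j z) (j x) := fun h => hr1 ⟨x, hx, h.symm⟩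
    have hlt : r < dist (j z) (j x) := lt_of_le_of_ne hge hne
    have : ∀ᶠ y in 𝓝 x, r < dist (j z) (j y) :=
      (isOpen_lt continuous_const hcont).mem_nhds hlt
    refine mem_nhdsWithin_of_mem_nhds ?_
    filter_upwards [this] with y hy hyP
    exact absurd hyP (not_lt.2 hy.le)
  · intro x _ hx y _ hy
    have h1 : dist (j z) (j x) < r := hx
    have h2 : dist (j z) (j y) < r := hy
    have h3 := dist_triangle_left (j x) (j y) (j z)
    have h4 : r < ε / 2 := hr2.2
    linarith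

end Expand

section Step

/-- For an increasing open cover `R n` there is a continuous real function `g` with `{g ≤ n} ⊆ R n`. -/
theorem exists_exhaust {X : Type*} [TopologicalSpace X] [NormalSpace X] [ParacompactSpace X]
    {R : ℕ → Set X} (hR : ∀ n, IsOpen (R n)) (hmono : Monotone R) (hcov : ∀ x, ∃ n, x ∈ R n) :
    ∃ g : C(X, ℝ), ∀ (x : X) (n : ℕ), g x ≤ n → x ∈ R n := by
  obtain ⟨g, hg⟩ := exists_continuous_forall_mem_convex_of_local_const
    (t := fun x : X => ⋂ (n : ℕ) (_ : x ∉ R n), Ioi (n : ℝ))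
    (fun x => convex_iInter₂ fun n _ => convex_Ioi _)
    (fun x => by
      obtain ⟨N, hN⟩ := hcov x
      refine ⟨(N : ℝ), ?_⟩
      filter_upwards [(hR N).mem_nhds hN] with y hy
      refine mem_iInter₂.2 fun n hn => ?_
      have : n < N := by
        by_contra hle
        exact hn (hmono (not_lt.1 hle) hy)
      change (n : ℝ) < (N : ℝ)
      exact_mod_cast this)
  refine ⟨g, fun x n hx => ?_⟩
  by_contra hxn
  have := mem_iInter₂.1 (hg x) n hxn
  exact absurd hx (not_le.2 this)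

theorem isClosed_of_LC {X : Type*} [TopologicalSpace X] {Q : Set X} (hQ : IsClosed Q) {π : X → ℕ}
    (hπ : LC Q π) (p : ℕ → Prop) : IsClosed (Set.ofPred fun x => x ∈ Q ∧ p (π x)) := by
  rw [← isOpen_compl_iff, isOpen_iff_mem_nhds]
  intro x hx
  by_cases hxQ : x ∈ Q
  · have hnp : ¬ p (π x) := fun h => hx ⟨hxQ, h⟩
    have := eventually_nhdsWithin_iff.1 (hπ x hxQ)
    filter_upwards [this] with y hy hyp
    rw [← hy hyp.1] at hnp
    exact hnp hyp.2
  · filter_upwards [hQ.isOpen_compl.mem_nhds hxQ] with y hy hyp using hy hyp.1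

/-- `A` is almost zero-dimensional: every point has small neighbourhoods which are intersections of
clopen subsets of `A`. -/
def AlmostZeroDim {X : Type*} [TopologicalSpace X] (A : Set X) : Prop :=
  ∀ a ∈ A, ∀ N ∈ 𝓝 a, ∃ D ⊆ N, ∃ O, IsOpen O ∧ a ∈ O ∧ O ∩ A ⊆ D ∧
    ∀ z ∈ A, z ∉ D → ∃ H, z ∈ H ∧ ClOn A H ∧ Disjoint H D

theorem exists_good {X Y : Type*} [TopologicalSpace X] [SecondCountableTopology X]
    [PseudoMetricSpace Y] {j : X → Y} (hj : Continuous j) {A : Set X} (hA : AlmostZeroDim A)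
    {ε : ℝ} (hε : 0 < ε) :
    ∃ O D : ℕ → Set X, (∀ k, IsOpen (O k)) ∧ (∀ k, O k ∩ A ⊆ D k) ∧
      (∀ k, ∀ z ∈ A, z ∉ D k → ∃ H, z ∈ H ∧ ClOn A H ∧ Disjoint H (D k)) ∧
      (∀ k, ∀ x ∈ D k, ∀ y ∈ D k, dist (j x) (j y) < ε) ∧ ∀ a ∈ A, ∃ k, a ∈ O k := by
  rcases A.eq_empty_or_nonempty with rfl | hne
  · exact ⟨fun _ => ∅, fun _ => ∅, fun _ => isOpen_empty, fun _ => by simp,
      fun _ z hz => absurd hz (notMem_empty z), fun _ x hx => absurd hx (notMem_empty x),
      fun a ha => absurd ha (notMem_empty a)⟩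
  have hN : ∀ a : X, (Set.ofPred fun y => dist (j a) (j y) < ε / 2) ∈ 𝓝 a := by
    intro a
    refine (isOpen_lt (continuous_const.dist hj) continuous_const).mem_nhds ?_
    change dist (j a) (j a) < ε / 2
    rw [dist_self]
    positivity
  choose! D hDN O hO haO hOD hH using fun a (ha : a ∈ A) => hA a ha _ (hN a)
  obtain ⟨t, htA, htc, hcov⟩ := TopologicalSpace.countable_cover_nhdsWithin
    (f := O) (s := A) (fun a ha => mem_nhdsWithin_of_mem_nhds ((hO a ha).mem_nhds (haO a ha)))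
  have htne : t.Nonempty := by
    obtain ⟨x, hx⟩ := hne
    obtain ⟨y, hy, -⟩ := mem_iUnion₂.1 (hcov hx)
    exact ⟨y, hy⟩
  obtain ⟨q, rfl⟩ := htc.exists_eq_range htne
  have hq : ∀ i, q i ∈ A := fun i => htA (mem_range_self i)
  refine ⟨fun k => O (q k), fun k => D (q k), fun k => hO _ (hq k), fun k => hOD _ (hq k),
    fun k => hH _ (hq k), ?_, ?_⟩
  · intro k x hx y hy
    have h1 : dist (j (q k)) (j x) < ε / 2 := hDN _ (hq k) hx
    have h2 : dist (j (q k)) (j y) < ε / 2 := hDN _ (hq k) hy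
    have h3 := dist_triangle_left (j x) (j y) (j (q k))
    linarith
  · intro a ha
    obtain ⟨y, ⟨i, rfl⟩, hy⟩ := mem_iUnion₂.1 (hcov ha)
    exact ⟨i, hy⟩

/-- The main step: any two disjoint closed sets of `X = A ∪ C` can be enlarged to disjoint closed
sets whose complement splits into small open pieces. -/
theorem step {X : Type*} [MetricSpace X] [SecondCountableTopology X] {A C : Set X}
    (hAC : ∀ x, x ∉ C → x ∈ A) (hC : C.Countable) (hA : AlmostZeroDim A)
    {E F : Set X} (hE : IsClosed E) (hF : IsClosed F) (hEF : Disjoint E F)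
    {ε : ℝ} (hε : 0 < ε) :
    ∃ E' F' : Set X, IsClosed E' ∧ IsClosed F' ∧ E ⊆ E' ∧ F ⊆ F' ∧ Disjoint E' F' ∧
      ∃ π : X → ℕ, (∀ x, x ∉ E' → x ∉ F' → ∀ᶠ y in 𝓝 x, π y = π x) ∧
        ∀ x, x ∉ E' → x ∉ F' → ∀ y, y ∉ E' → y ∉ F' → π x = π y → dist x y < ε := by
  classical
  obtain ⟨f, hf0, hf1, -⟩ := exists_continuous_zero_one_of_isClosed hE hF hEF
  let j : X → X × ℝ := fun x => (x, f x)
  have hj : Continuous j := continuous_id.prodMk f.continuous
  have hj1 : ∀ x y, dist x y ≤ dist (j x) (j y) := fun x y => by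
    rw [Prod.dist_eq]; exact le_max_left _ _
  have hj2 : ∀ x y, |f x - f y| ≤ dist (j x) (j y) := fun x y => by
    rw [Prod.dist_eq, ← Real.dist_eq]; exact le_max_right _ _
  obtain ⟨ε1, hε1, hε1a, hε1b⟩ : ∃ ε1 : ℝ, 0 < ε1 ∧ 12 * ε1 < ε ∧ 12 * ε1 < 1 := by
    refine ⟨min ε 1 / 13, by positivity, ?_, ?_⟩
    · have := min_le_left ε 1
      have h0 : 0 < min ε 1 := by positivity
      linarith
    · have := min_le_right ε 1
      have h0 : 0 < min ε 1 := by positivity
      linarith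
  -- good and bad sets
  obtain ⟨O, D, hO, hOD, hDH, hDs, hOcov⟩ := exists_good hj hA hε1
  obtain ⟨πC, hπC1, hπC2⟩ := exists_partition C (fun x y => dist (j x) (j y) < ε1 / 3)
    (fun z _ => countable_piece hj hC (by positivity))
  obtain ⟨GC, πC', hGCo, hCG, hπC'1, hπC'2⟩ := expand hj hπC1 (by positivity : 0 < ε1 / 3) hπC2
  let V : ℕ → Set X := fun k => Set.ofPred fun x => x ∈ GC ∧ πC' x = k
  have hVo : ∀ k, IsOpen (V k) := by
    intro k
    rw [isOpen_iff_mem_nhds]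
    intro x hx
    filter_upwards [hGCo.mem_nhds hx.1, hπC'1 x hx.1] with y hy1 hy2
    exact ⟨hy1, hy2.trans hx.2⟩
  have hVd : ∀ k l, k ≠ l → Disjoint (V k) (V l) := by
    intro k l hkl
    rw [Set.disjoint_left]
    intro x hx hx'
    exact hkl (hx.2.symm.trans hx'.2)
  have hVs : ∀ k, ∀ x ∈ V k, ∀ y ∈ V k, dist (j x) (j y) < ε1 := by
    intro k x hx y hy
    have := hπC'2 x hx.1 y hy.1 (hx.2.trans hy.2.symm)
    linarith
  let R : ℕ → Set X := fun n => Set.ofPred fun x => ∃ k < n, x ∈ O k ∨ x ∈ V k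
  have hRo : ∀ n, IsOpen (R n) := by
    intro n
    have : R n = ⋃ k : ℕ, ⋃ _ : k < n, (O k ∪ V k) := by
      ext x
      simp [R]
    rw [this]
    exact isOpen_iUnion fun k => isOpen_iUnion fun _ => (hO k).union (hVo k)
  have hRm : Monotone R := by
    intro m n hmn x hx
    obtain ⟨k, hk, hx⟩ := hx
    exact ⟨k, hk.trans_le hmn, hx⟩
  have hRc : ∀ x, ∃ n, x ∈ R n := by
    intro x
    by_cases hx : x ∈ C
    · exact ⟨πC' x + 1, πC' x, Nat.lt_succ_self _, Or.inr ⟨hCG hx, rfl⟩⟩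
    · obtain ⟨k, hk⟩ := hOcov x (hAC x hx)
      exact ⟨k + 1, k, Nat.lt_succ_self _, Or.inl hk⟩
  obtain ⟨g, hg⟩ := exists_exhaust hRo hRm hRc
  -- levels avoiding `C`
  have hcount : (⋃ m : ℤ, (fun c => g c - m) '' C).Countable :=
    countable_iUnion fun m => hC.image _
  obtain ⟨s, hs⟩ := (hcount.dense_compl ℝ).nonempty
  have hsC : ∀ c ∈ C, ∀ m : ℤ, g c - s ≠ m := by
    intro c hc m hm
    apply hs
    refine mem_iUnion.2 ⟨m, c, hc, ?_⟩
    simp only
    linarith
  let h : X → ℝ := fun x => g x - s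
  have hh : Continuous h := g.continuous.sub continuous_const
  let φ : X → ℤ := fun x => ⌊h x⌋
  let Q : Set X := h ⁻¹' (range ((↑) : ℤ → ℝ))
  have hQc : IsClosed Q := Int.isClosedEmbedding_coe_real.isClosed_range.preimage hh
  have hQC : ∀ x ∈ Q, x ∉ C := by
    rintro x ⟨m, hm⟩ hxC
    exact hsC x hxC m hm.symm
  have hφ1 : ∀ x, x ∉ Q → ∀ᶠ y in 𝓝 x, φ y = φ x := by
    intro x hx
    have h1 : (⌊h x⌋ : ℝ) < h x := lt_of_le_of_ne (Int.floor_le _) (fun he => hx ⟨_, he⟩)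
    have h2 : h x < ⌊h x⌋ + 1 := Int.lt_floor_add_one _
    have := hh.continuousAt.eventually (Ioo_mem_nhds h1 h2)
    filter_upwards [this] with y hy
    exact Int.floor_eq_iff.2 ⟨hy.1.le, hy.2⟩
  have hφ2 : ∀ x ∈ Q, ∀ᶠ y in 𝓝[Q] x, φ y = φ x := by
    intro x hx
    obtain ⟨m, hm⟩ := hx
    have hm' : h x = m := hm.symm
    have h1 : (m : ℝ) - 1 < h x := by rw [hm']; linarith
    have h2 : h x < m + 1 := by rw [hm']; linarith
    have h3 : ∀ᶠ y in 𝓝[Q] x, h y ∈ Ioo ((m : ℝ) - 1) (m + 1) :=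
      (hh.continuousAt.eventually (Ioo_mem_nhds h1 h2)).filter_mono nhdsWithin_le_nhds
    filter_upwards [h3, self_mem_nhdsWithin] with y hy hyQ
    obtain ⟨l, hl⟩ := hyQ
    have hl' : h y = l := hl.symm
    have hy1 : (m : ℝ) - 1 < l := by rw [← hl']; exact hy.1
    have hy2 : (l : ℝ) < m + 1 := by rw [← hl']; exact hy.2
    have hlm : l = m := by
      have a1 : m - 1 < l := by exact_mod_cast hy1
      have a2 : l < m + 1 := by exact_mod_cast hy2
      omega
    change ⌊h y⌋ = ⌊h x⌋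
    rw [hl', hm', hlm]
  -- decomposition of subsets of `A`
  have hdec : ∀ Z : Set X, Z ⊆ A → (∀ x ∈ Z, ∀ᶠ y in 𝓝[Z] x, φ y = φ x) →
      ∃ π : X → ℕ, LC Z π ∧ ∀ x ∈ Z, ∀ y ∈ Z, π x = π y → dist (j x) (j y) < 4 * ε1 := by
    intro Z hZA hφZ
    refine exists_partition Z (fun x y => dist (j x) (j y) < 4 * ε1) ?_
    intro z hz
    let S : Set X := Set.ofPred fun x => φ x = φ z
    have hS : ClOn Z S := by
      refine ⟨?_, ?_⟩
      · intro x hx hxS
        filter_upwards [hφZ x hx] with y hy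
        exact hy.trans hxS
      · intro x hx hxS
        filter_upwards [hφZ x hx] with y hy hyS
        exact hxS (hy.symm.trans hyS)
    obtain ⟨n, hn⟩ := exists_nat_ge (s + φ z + 1)
    have hcov : ∀ x ∈ Z, x ∈ S → ∃ k < n, x ∈ O k ∨ x ∈ V k := by
      intro x _ hxS
      refine hg x n ?_
      have h1 : h x < ⌊h x⌋ + 1 := Int.lt_floor_add_one _
      have h2 : ⌊h x⌋ = φ z := hxS
      rw [h2] at h1
      have h3 : h x = g x - s := rfl
      linarith
    obtain ⟨P, hzP, hP, hPs⟩ := piece j hO hOD hDH hDs hVo hVd hVs hZA hS n hcov hz rfl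
    refine ⟨P, hzP, hP, fun x hx hxP y hy hyP => ?_⟩
    have h1 := hPs x hx hxP
    have h2 := hPs y hy hyP
    have h3 := dist_triangle_left (j x) (j y) (j z)
    linarith
  have hQA : Q ⊆ A := fun x hx => hAC x (hQC x hx)
  obtain ⟨π0, hπ01, hπ02⟩ := hdec (A \ Q) sdiff_subset
    (fun x hx => mem_nhdsWithin_of_mem_nhds (hφ1 x hx.2))
  obtain ⟨πQ, hπQ1, hπQ2⟩ := hdec Q hQA hφ2
  obtain ⟨G, π', hGo, hZG, hπ'1, hπ'2⟩ := expand hj hπ01 (by positivity : 0 < 4 * ε1) hπ02
  -- split `Q`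
  let p : ℕ → Prop := fun n => ∀ y ∈ Q, πQ y = n → y ∉ F
  let QE : Set X := Set.ofPred fun x => x ∈ Q ∧ p (πQ x)
  let QF : Set X := Set.ofPred fun x => x ∈ Q ∧ ¬ p (πQ x)
  have hQE : IsClosed QE := isClosed_of_LC hQc hπQ1 p
  have hQF : IsClosed QF := isClosed_of_LC hQc hπQ1 (fun n => ¬ p n)
  have hdis : Disjoint (E ∪ QE) (F ∪ QF) := by
    rw [Set.disjoint_left]
    rintro x (hx | hx) (hx' | hx')
    · exact Set.disjoint_left.1 hEF hx hx'
    · obtain ⟨hxQ, hnp⟩ := hx'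
      have hnp' : ∃ y ∈ Q, πQ y = πQ x ∧ y ∈ F := by
        by_contra hcon
        apply hnp
        intro y hy hyx hyF
        exact hcon ⟨y, hy, hyx, hyF⟩
      obtain ⟨y, hyQ, hyx, hyF⟩ := hnp'
      have h1 := hπQ2 y hyQ x hxQ hyx
      have h2 := hj2 y x
      rw [hf0 hx, hf1 hyF] at h2
      simp only [Pi.one_apply, Pi.zero_apply, sub_zero, abs_one] at h2
      linarith
    · exact hx.2 x hx.1 rfl hx'
    · exact hx'.2 hx.2
  obtain ⟨g2, hg20, hg21, -⟩ := exists_continuous_zero_one_of_isClosed (hE.union hQE)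
    (hF.union hQF) hdis
  obtain ⟨t, ht1, ht2⟩ := ((hC.image g2).dense_compl ℝ).exists_mem_open
    (isOpen_Ioo (a := (0 : ℝ)) (b := 1)) (nonempty_Ioo.2 one_pos)
  have hT : ∀ x, x ∉ G → g2 x ≠ t := by
    intro x hxG hxt
    by_cases hxC : x ∈ C
    · exact ht1 ⟨x, hxC, hxt⟩
    · have hxA := hAC x hxC
      have hxQ : x ∈ Q := by
        by_contra hxQ
        exact hxG (hZG ⟨hxA, hxQ⟩)
      by_cases hp : p (πQ x)
      · have := hg20 (Or.inr ⟨hxQ, hp⟩ : x ∈ E ∪ QE)
        rw [hxt] at this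
        exact absurd this (ne_of_gt ht2.1)
      · have := hg21 (Or.inr ⟨hxQ, hp⟩ : x ∈ F ∪ QF)
        rw [hxt] at this
        exact absurd this (ne_of_lt ht2.2)
  have hcompl : ∀ x, x ∉ E ∪ (Gᶜ ∩ (g2 ⁻¹' Iic t)) → x ∉ F ∪ (Gᶜ ∩ (g2 ⁻¹' Ici t)) → x ∈ G := by
    intro x hx1 hx2
    by_contra hxG
    rcases le_total (g2 x) t with hle | hle
    · exact hx1 (Or.inr ⟨hxG, hle⟩)
    · exact hx2 (Or.inr ⟨hxG, hle⟩)
  refine ⟨E ∪ (Gᶜ ∩ (g2 ⁻¹' Iic t)), F ∪ (Gᶜ ∩ (g2 ⁻¹' Ici t)),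
    hE.union (hGo.isClosed_compl.inter (isClosed_Iic.preimage g2.continuous)),
    hF.union (hGo.isClosed_compl.inter (isClosed_Ici.preimage g2.continuous)),
    subset_union_left, subset_union_left, ?_, π', ?_, ?_⟩
  · rw [Set.disjoint_left]
    rintro x (hx | hx) (hx' | hx')
    · exact Set.disjoint_left.1 hEF hx hx'
    · have h1 := hg20 (Or.inl hx : x ∈ E ∪ QE)
      have h2 : t ≤ g2 x := hx'.2
      rw [h1] at h2
      exact absurd ht2.1 (not_lt.2 h2)
    · have h1 := hg21 (Or.inl hx' : x ∈ F ∪ QF)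
      have h2 : g2 x ≤ t := hx.2
      rw [h1] at h2
      exact absurd ht2.2 (not_lt.2 h2)
    · exact hT x hx.1 (le_antisymm hx.2 hx'.2)
  · intro x hx1 hx2
    exact hπ'1 x (hcompl x hx1 hx2)
  · intro x hx1 hx2 y hy1 hy2 hxy
    have h1 := hπ'2 x (hcompl x hx1 hx2) y (hcompl y hy1 hy2) hxy
    have h2 := hj1 x y
    linarith

end Step

section Final

/-- **Main theorem.** If `X = A ∪ C` is a separable metric space, `C` is countable and `A` is almost
zero-dimensional, then every point has small open neighbourhoods `U` whose frontier splits, for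
every `m`, into relatively clopen pieces of diameter at most `1 / (m + 1)`. -/
theorem exists_frontier {X : Type*} [MetricSpace X] [SecondCountableTopology X] {A C : Set X}
    (hAC : ∀ x, x ∉ C → x ∈ A) (hC : C.Countable) (hA : AlmostZeroDim A)
    {x : X} {V : Set X} (hV : IsOpen V) (hx : x ∈ V) :
    ∃ U : Set X, IsOpen U ∧ x ∈ U ∧ U ⊆ V ∧ ∀ m : ℕ, ∃ π : X → ℕ,
      (∀ y ∈ frontier U, ∀ᶠ z in 𝓝 y, π z = π y) ∧
      ∀ y ∈ frontier U, ∀ z ∈ frontier U, π y = π z → dist y z < 1 / ((m : ℝ) + 1) := by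
  classical
  -- states: pairs of disjoint closed sets
  let St : Type _ := {p : Set X × Set X // IsClosed p.1 ∧ IsClosed p.2 ∧ Disjoint p.1 p.2}
  have hnext : ∀ (st : St) (m : ℕ), ∃ st' : St, st.1.1 ⊆ interior st'.1.1 ∧
      st.1.2 ⊆ interior st'.1.2 ∧ ∃ π : X → ℕ,
        (∀ x, x ∉ st'.1.1 → x ∉ st'.1.2 → ∀ᶠ y in 𝓝 x, π y = π x) ∧
        ∀ x, x ∉ st'.1.1 → x ∉ st'.1.2 → ∀ y, y ∉ st'.1.1 → y ∉ st'.1.2 → π x = π y →
          dist x y < 1 / ((m : ℝ) + 1) := by
    rintro ⟨⟨E, F⟩, hE, hF, hEF⟩ m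
    obtain ⟨E1, F1, hE1, hF1, hEE1, hFF1, hd1⟩ :
        ∃ E1 F1 : Set X, IsClosed E1 ∧ IsClosed F1 ∧ E ⊆ interior E1 ∧ F ⊆ interior F1 ∧
          Disjoint E1 F1 := by
      obtain ⟨f, hf0, hf1, -⟩ := exists_continuous_zero_one_of_isClosed hE hF hEF
      refine ⟨f ⁻¹' Iic (1 / 3), f ⁻¹' Ici (2 / 3), isClosed_Iic.preimage f.continuous,
        isClosed_Ici.preimage f.continuous, ?_, ?_, ?_⟩
      · intro y hy
        refine mem_interior.2 ⟨f ⁻¹' Iio (1 / 3), preimage_mono Iio_subset_Iic_self,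
          isOpen_Iio.preimage f.continuous, ?_⟩
        have := hf0 hy
        change f y < 1 / 3
        rw [this]
        norm_num
      · intro y hy
        refine mem_interior.2 ⟨f ⁻¹' Ioi (2 / 3), preimage_mono Ioi_subset_Ici_self,
          isOpen_Ioi.preimage f.continuous, ?_⟩
        have := hf1 hy
        change 2 / 3 < f y
        rw [this]
        norm_num
      · rw [Set.disjoint_left]
        intro y hy1 hy2
        have h1 : f y ≤ 1 / 3 := hy1
        have h2 : 2 / 3 ≤ f y := hy2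
        linarith
    obtain ⟨E', F', hE', hF', hEE', hFF', hd, π, hπ1, hπ2⟩ := step hAC hC hA hE1 hF1 hd1
      (by positivity : (0 : ℝ) < 1 / ((m : ℝ) + 1))
    exact ⟨⟨(E', F'), hE', hF', hd⟩, hEE1.trans (interior_mono hEE'),
      hFF1.trans (interior_mono hFF'), π, hπ1, hπ2⟩
  choose next hn1 hn2 hn3 using hnext
  obtain ⟨r, hr, hrV⟩ := Metric.isOpen_iff.1 hV x hx
  have hdisj0 : Disjoint (Metric.closedBall x (r / 2)) (Metric.ball x r)ᶜ := by
    rw [Set.disjoint_left]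
    intro y hy hy'
    apply hy'
    have h1 : dist y x ≤ r / 2 := hy
    change dist y x < r
    linarith
  let st0 : St := ⟨(Metric.closedBall x (r / 2), (Metric.ball x r)ᶜ), Metric.isClosed_closedBall,
    Metric.isOpen_ball.isClosed_compl, hdisj0⟩
  let s : ℕ → St := fun n => Nat.rec st0 (fun m st => next st m) n
  have hs : ∀ m, s (m + 1) = next (s m) m := fun m => rfl
  have hE1 : ∀ m, (s m).1.1 ⊆ interior (s (m + 1)).1.1 := fun m => by
    rw [hs]; exact hn1 _ _
  have hF1 : ∀ m, (s m).1.2 ⊆ interior (s (m + 1)).1.2 := fun m => by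
    rw [hs]; exact hn2 _ _
  have hEm : Monotone fun m => (s m).1.1 :=
    monotone_nat_of_le_succ fun m => (hE1 m).trans interior_subset
  have hFm : Monotone fun m => (s m).1.2 :=
    monotone_nat_of_le_succ fun m => (hF1 m).trans interior_subset
  let U : Set X := ⋃ m, interior (s m).1.1
  let U' : Set X := ⋃ m, interior (s m).1.2
  have hEU : ∀ m, (s m).1.1 ⊆ U := fun m => (hE1 m).trans (subset_iUnion_of_subset (m + 1) Subset.rfl)
  have hFU : ∀ m, (s m).1.2 ⊆ U' := fun m => (hF1 m).trans (subset_iUnion_of_subset (m + 1) Subset.rfl)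
  have hUo : IsOpen U := isOpen_iUnion fun m => isOpen_interior
  have hU'o : IsOpen U' := isOpen_iUnion fun m => isOpen_interior
  have hUU' : Disjoint U U' := by
    rw [Set.disjoint_left]
    intro y hy hy'
    obtain ⟨m, hm⟩ := mem_iUnion.1 hy
    obtain ⟨n, hn⟩ := mem_iUnion.1 hy'
    have h1 : y ∈ (s (max m n)).1.1 := hEm (le_max_left m n) (interior_subset hm)
    have h2 : y ∈ (s (max m n)).1.2 := hFm (le_max_right m n) (interior_subset hn)
    exact Set.disjoint_left.1 (s (max m n)).2.2.2 h1 h2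
  have hfr : ∀ y ∈ frontier U, ∀ m, y ∉ (s m).1.1 ∧ y ∉ (s m).1.2 := by
    intro y hy m
    rw [hUo.frontier_eq] at hy
    refine ⟨fun h => hy.2 (hEU m h), fun h => ?_⟩
    obtain ⟨z, hz1, hz2⟩ := mem_closure_iff.1 hy.1 U' hU'o (hFU m h)
    exact Set.disjoint_left.1 hUU' hz2 hz1
  refine ⟨U, hUo, ?_, ?_, ?_⟩
  · exact hEU 0 (Metric.mem_closedBall_self (by positivity))
  · intro y hy
    apply hrV
    by_contra hyr
    exact Set.disjoint_left.1 hUU' hy (hFU 0 hyr)
  · intro m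
    obtain ⟨π, hπ1, hπ2⟩ := hn3 (s m) m
    refine ⟨π, fun y hy => ?_, fun y hy z hz hyz => ?_⟩
    · have := hfr y hy (m + 1)
      rw [hs] at this
      exact hπ1 y this.1 this.2
    · have h1 := hfr y hy (m + 1)
      have h2 := hfr z hz (m + 1)
      rw [hs] at h1 h2
      exact hπ2 y h1.1 h1.2 z h2.1 h2.2 hyz

end Final

end Pool.Agent.helper66.AZD
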