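import Mathlib

/-!
# Almost zero-dimensional complements of countable sets

General lemmas used to show that a separable metric space `X` with a countable set `C` whose
complement is almost zero-dimensional has dimension at most one.
-/

set_option autoImplicit false

open Set Filter Topology

namespace Pool.Agent.helper66.AZD

section Basic

variable {X : Type*} [TopologicalSpace X]

/-- `H` is clopen relative to `A`. -/
def ClOn (A H : Set X) : Prop :=
  (∀ x ∈ A, x ∈ H → H ∈ 𝓝[A] x) ∧ (∀ x ∈ A, x ∉ H → Hᶜ ∈ 𝓝[A] x)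

theorem ClOn.mono {A Z H : Set X} (h : ClOn A H) (hZ : Z ⊆ A) : ClOn Z H :=
  ⟨fun x hx hxH => nhdsWithin_mono x hZ (h.1 x (hZ hx) hxH),
   fun x hx hxH => nhdsWithin_mono x hZ (h.2 x (hZ hx) hxH)⟩

/-- `π` is locally constant on `Z`. -/
def LC (Z : Set X) (π : X → ℕ) : Prop := ∀ x ∈ Z, ∀ᶠ y in 𝓝[Z] x, π y = π x

/-- If every point of `Z` has a small relatively clopen neighbourhood, then `Z` has a countable
partition into small relatively clopen sets. -/
theorem exists_partition [SecondCountableTopology X] (Z : Set X) (e : X → X → Prop)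
    (h : ∀ z ∈ Z, ∃ P : Set X, z ∈ P ∧ ClOn Z P ∧ ∀ x ∈ Z, x ∈ P → ∀ y ∈ Z, y ∈ P → e x y) :
    ∃ π : X → ℕ, LC Z π ∧ ∀ x ∈ Z, ∀ y ∈ Z, π x = π y → e x y := by
  classical
  rcases Z.eq_empty_or_nonempty with rfl | hne
  · exact ⟨fun _ => 0, fun x hx => absurd hx (notMem_empty x), fun x hx => absurd hx (notMem_empty x)⟩
  choose! P hzP hcl hsm using h
  obtain ⟨t, htZ, htc, hcov⟩ := TopologicalSpace.countable_cover_nhdsWithin
    (f := P) (s := Z) (fun x hx => (hcl x hx).1 x hx (hzP x hx))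
  have htne : t.Nonempty := by
    obtain ⟨x, hx⟩ := hne
    obtain ⟨y, hy, -⟩ := mem_iUnion₂.1 (hcov hx)
    exact ⟨y, hy⟩
  obtain ⟨q, rfl⟩ := htc.exists_eq_range htne
  have hq : ∀ i, q i ∈ Z := fun i => htZ (mem_range_self i)
  have hex : ∀ x ∈ Z, (Set.ofPred fun i => x ∈ P (q i)).Nonempty := by
    intro x hx
    obtain ⟨y, ⟨i, rfl⟩, hy⟩ := mem_iUnion₂.1 (hcov hx)
    exact ⟨i, hy⟩
  let π : X → ℕ := fun x => sInf (Set.ofPred fun i => x ∈ P (q i))
  have hmem : ∀ x ∈ Z, x ∈ P (q (π x)) := fun x hx => Nat.sInf_mem (hex x hx)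
  refine ⟨π, ?_, ?_⟩
  · intro x hx
    have h1 : ∀ᶠ y in 𝓝[Z] x, y ∈ P (q (π x)) := (hcl _ (hq _)).1 x hx (hmem x hx)
    have h2 : ∀ᶠ y in 𝓝[Z] x, ∀ i ∈ Finset.range (π x), y ∉ P (q i) := by
      rw [Filter.eventually_all_finset]
      intro i hi
      have hi' : i < π x := Finset.mem_range.1 hi
      exact (hcl _ (hq i)).2 x hx (fun hxi => Nat.notMem_of_lt_sInf hi' hxi)
    filter_upwards [h1, h2, self_mem_nhdsWithin] with y hy1 hy2 hyZ
    refine le_antisymm (Nat.sInf_le hy1) ?_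
    by_contra hlt
    exact hy2 (π y) (Finset.mem_range.2 (not_le.1 hlt)) (hmem y hyZ)
  · intro x hx y hy hxy
    refine hsm _ (hq (π x)) x hx (hmem x hx) y hy ?_
    rw [hxy]
    exact hmem y hy

/-- The main lemma: finite unions of sets `O k` (contained in small quasi-closed sets `D k`) and of
pairwise disjoint small open sets `V k` decompose into small relatively clopen sets. -/
theorem piece {Y : Type*} [PseudoMetricSpace Y] (j : X → Y) {ε : ℝ} {A : Set X}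
    {O D V : ℕ → Set X}
    (hO : ∀ k, IsOpen (O k)) (hOD : ∀ k, O k ∩ A ⊆ D k)
    (hD : ∀ k, ∀ z ∈ A, z ∉ D k → ∃ H, z ∈ H ∧ ClOn A H ∧ Disjoint H (D k))
    (hDs : ∀ k, ∀ x ∈ D k, ∀ y ∈ D k, dist (j x) (j y) < ε)
    (hV : ∀ k, IsOpen (V k)) (hVd : ∀ k l, k ≠ l → Disjoint (V k) (V l))
    (hVs : ∀ k, ∀ x ∈ V k, ∀ y ∈ V k, dist (j x) (j y) < ε)
    {Z S : Set X} (hZ : Z ⊆ A) (hS : ClOn Z S) (n : ℕ)
    (hcov : ∀ x ∈ Z, x ∈ S → ∃ k < n, x ∈ O k ∨ x ∈ V k) {z : X} (hz : z ∈ Z) (hzS : z ∈ S) :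
    ∃ P, z ∈ P ∧ ClOn Z P ∧ ∀ x ∈ Z, x ∈ P → dist (j z) (j x) < 2 * ε := by
  classical
  have hH : ∀ k, ∃ H, z ∉ D k → (z ∈ H ∧ ClOn A H ∧ Disjoint H (D k)) := by
    intro k
    by_cases hk : z ∈ D k
    · exact ⟨univ, fun h => absurd hk h⟩
    · obtain ⟨H, h⟩ := hD k z (hZ hz) hk
      exact ⟨H, fun _ => h⟩
  choose H hH using hH
  let T : Set X := Set.ofPred fun w => ∃ k < n, z ∈ D k ∧ w ∈ D k
  let cond : ℕ → Prop := fun b => Disjoint (V b) T ∧ z ∉ V b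
  let P : Set X := Set.ofPred fun x =>
    x ∈ S ∧ (∀ k < n, z ∉ D k → x ∈ H k) ∧ ∀ b < n, cond b → x ∉ V b
  have hPO : ∀ x ∈ Z, (∀ k < n, z ∉ D k → x ∈ H k) → ∀ k < n, x ∈ O k → z ∈ D k ∧ x ∈ D k := by
    intro x hx hxH k hk hxO
    have hxD : x ∈ D k := hOD k ⟨hxO, hZ hx⟩
    refine ⟨?_, hxD⟩
    by_contra hzk
    exact (Set.disjoint_left.1 (hH k hzk).2.2) (hxH k hk hzk) hxD
  refine ⟨P, ⟨hzS, fun k _ hzk => (hH k hzk).1, fun b _ hb => hb.2⟩, ⟨?_, ?_⟩, ?_⟩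
  · intro x hx hxP
    obtain ⟨hxS, hxH, hxV⟩ := hxP
    have h1 : ∀ᶠ y in 𝓝[Z] x, y ∈ S := hS.1 x hx hxS
    have h2 : ∀ᶠ y in 𝓝[Z] x, ∀ k ∈ Finset.range n, z ∉ D k → y ∈ H k := by
      rw [Filter.eventually_all_finset]
      intro k hk
      by_cases hzk : z ∈ D k
      · exact Eventually.of_forall fun y h => absurd hzk h
      · have := ((hH k hzk).2.1.mono hZ).1 x hx (hxH k (Finset.mem_range.1 hk) hzk)
        filter_upwards [this] with y hy _ using hy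
    have h3 : ∀ᶠ y in 𝓝[Z] x, ∀ b < n, cond b → y ∉ V b := by
      obtain ⟨k, hk, hxk⟩ := hcov x hx hxS
      rcases hxk with hxk | hxk
      · obtain ⟨hzk, -⟩ := hPO x hx hxH k hk hxk
        have : ∀ᶠ y in 𝓝[Z] x, y ∈ O k :=
          mem_nhdsWithin_of_mem_nhds ((hO k).mem_nhds hxk)
        filter_upwards [this, self_mem_nhdsWithin] with y hy hyZ b _ hb hyb
        exact Set.disjoint_left.1 hb.1 hyb ⟨k, hk, hzk, hOD k ⟨hy, hZ hyZ⟩⟩
      · have : ∀ᶠ y in 𝓝[Z] x, y ∈ V k :=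
          mem_nhdsWithin_of_mem_nhds ((hV k).mem_nhds hxk)
        filter_upwards [this] with y hy b hbn hb hyb
        by_cases hbk : b = k
        · subst hbk
          exact hxV b hbn hb hxk
        · exact Set.disjoint_left.1 (hVd b k hbk) hyb hy
    filter_upwards [h1, h2, h3] with y hy1 hy2 hy3
    exact ⟨hy1, fun k hk => hy2 k (Finset.mem_range.2 hk), hy3⟩
  · intro x hx hxP
    have hcases : x ∉ S ∨ (∃ k, k < n ∧ z ∉ D k ∧ x ∉ H k) ∨ ∃ b, b < n ∧ cond b ∧ x ∈ V b := by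
      by_contra hcon
      push Not at hcon
      obtain ⟨c1, c2, c3⟩ := hcon
      exact hxP ⟨c1, c2, c3⟩
    rcases hcases with h | ⟨k, hk, hzk, hxk⟩ | ⟨b, hbn, hb, hxb⟩
    · filter_upwards [hS.2 x hx h] with y hy hyP using hy hyP.1
    · filter_upwards [((hH k hzk).2.1.mono hZ).2 x hx hxk] with y hy hyP
      exact hy (hyP.2.1 k hk hzk)
    · filter_upwards [mem_nhdsWithin_of_mem_nhds ((hV b).mem_nhds hxb)] with y hy hyP
      exact hyP.2.2 b hbn hb hy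
  · intro x hx hxP
    obtain ⟨hxS, hxH, hxV⟩ := hxP
    obtain ⟨k, hk, hxk⟩ := hcov x hx hxS
    rcases hxk with hxk | hxk
    · obtain ⟨hzk, hxDk⟩ := hPO x hx hxH k hk hxk
      have h1 := hDs k z hzk x hxDk
      have h2 : 0 ≤ dist (j z) (j x) := dist_nonneg
      linarith
    · have hnc : ¬ cond k := fun hc => hxV k hk hc hxk
      by_cases hzV : z ∈ V k
      · have h1 := hVs k z hzV x hxk
        have h2 : 0 ≤ dist (j z) (j x) := dist_nonneg
        linarith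
      · have hnd : ¬ Disjoint (V k) T := fun hd => hnc ⟨hd, hzV⟩
        obtain ⟨w, hwV, l, hl, hzl, hwl⟩ := Set.not_disjoint_iff.1 hnd
        have h1 := hDs l z hzl w hwl
        have h2 := hVs k w hwV x hxk
        have h3 := dist_triangle (j z) (j w) (j x)
        linarith

end Basic

end Pool.Agent.helper66.AZD
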